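import Mathlib
import Pool.Agent.H.MP_8cad3b_co.C
set_option autoImplicit false

namespace Pool.Agent.Results.MP_8cad3b_co.Yes
open Finset Filter Pool.Agent.H.MP_8cad3b_co

/-- vertices of `G_{l,2}(n)`: the `l`-subsets and the `2`-subsets of an `n`-set -/
abbrev Vx (l n : ℕ) : Type := {A : Finset (Fin n) // A.card = l ∨ A.card = 2}

/-- the graph `G_{l,2}(n)`: an `l`-set `A` and a `2`-set `B` are adjacent iff `B ⊆ A` -/
def Gr (l n : ℕ) : SimpleGraph (Vx l n) :=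
  SimpleGraph.fromRel fun A B => A.1.card = l ∧ B.1.card = 2 ∧ B.1 ⊆ A.1

/-- independent domination number -/
noncomputable def iNum {W : Type} (G : SimpleGraph W) : ℕ :=
  sInf {k | ∃ D : Finset W, D.card = k ∧ G.IsIndepSet (D : Set W) ∧ ∀ v ∉ D, ∃ u ∈ D, G.Adj v u}

theorem ex (l n : ℕ) (hl : 4 ≤ l) : ∃ D : Finset (Vx l n), D.card = iNum (Gr l n) ∧
    (Gr l n).IsIndepSet (D : Set (Vx l n)) ∧ ∀ v ∉ D, ∃ u ∈ D, (Gr l n).Adj v u := by
  refine Nat.sInf_mem (s := {k | ∃ D : Finset (Vx l n), D.card = k ∧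
    (Gr l n).IsIndepSet (D : Set (Vx l n)) ∧ ∀ v ∉ D, ∃ u ∈ D, (Gr l n).Adj v u})
    ⟨_, univ.filter fun A => A.1.card = 2, rfl, fun A hA B hB _ h => ?_, fun v hv => ?_⟩
  · have h1 := (mem_filter.1 hA).2
    have h2 := (mem_filter.1 hB).2
    rcases ((SimpleGraph.fromRel_adj _ _ _).1 h).2 with h | h <;> omega
  · have h1 : v.1.card ≠ 2 := fun h => hv (mem_filter.2 ⟨mem_univ _, h⟩)
    have h2 := v.2.resolve_right h1
    obtain ⟨B, b1, b2⟩ := exists_subset_card_eq (s := v.1) (n := 2) (by omega)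
    exact ⟨⟨B, Or.inr b2⟩, mem_filter.2 ⟨mem_univ _, b2⟩, (SimpleGraph.fromRel_adj _ _ _).2
      ⟨fun h => h1 (by rw [h, b2]), Or.inl ⟨h2, b2, b1⟩⟩⟩

theorem mem_KK {V : Type} [Fintype V] {G : SimpleGraph V} {s : ℕ} {Q : Finset V} :
    Q ∈ KK G s univ ↔ G.IsNClique s Q := by
  simp [KK]

theorem result (l : ℕ) (hl : 4 ≤ l) : ∃ ε : ℝ, 0 < ε ∧ ∀ᶠ n : ℕ in atTop,
    (((l : ℝ) + 3) / (((l : ℝ) - 1) * ((l : ℝ) + 1)) + ε) * (n.choose 2 : ℝ) ≤ iNum (Gr l n) := by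
  obtain ⟨ε, hε, N, H⟩ := main l hl
  refine ⟨ε, hε, (tendsto_natCast_atTop_atTop.eventually_ge_atTop N).mono fun n hn => ?_⟩
  obtain ⟨D, d0, d1, d2⟩ := ex l n hl
  set E := D.map (Function.Embedding.subtype _) with hE
  have hm : ∀ A : Vx l n, A.1 ∈ E ↔ A ∈ D := fun A => mem_map' _
  let G : SimpleGraph (Fin n) :=
    { Adj := fun x y => x ≠ y ∧ ({x, y} : Finset (Fin n)) ∉ E
      symm := ⟨fun x y h => ⟨h.1.symm, by rw [pair_comm]; exact h.2⟩⟩
      loopless := ⟨fun x h => h.1 rfl⟩ }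
  have h1 : KK G l univ ⊆ E.filter fun A => A.card = l := fun Q hQ => by
    have q := mem_KK.1 hQ
    refine mem_filter.2 ⟨(hm ⟨Q, Or.inl q.2⟩).2 (by_contra fun h => ?_), q.2⟩
    obtain ⟨u, hu, h⟩ := d2 _ h
    have q2 := q.2
    rcases ((SimpleGraph.fromRel_adj _ _ _).1 h).2 with h | h
    · obtain ⟨x, y, hxy, e⟩ := card_eq_two.1 h.2.1
      exact (q.1 (h.2.2 (by simp [e])) (h.2.2 (by simp [e])) hxy).2 (e ▸ (hm u).2 hu)
    · have := h.2.1
      dsimp only at this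
      omega
  have h2 : ∀ x y, G.Adj x y → ∃ Q ∈ KK G l univ, x ∈ Q ∧ y ∈ Q := fun x y h => by
    have c := card_pair h.1
    obtain ⟨u, hu, h⟩ := d2 ⟨{x, y}, Or.inr c⟩ fun h' => h.2 ((hm _).2 h')
    rcases ((SimpleGraph.fromRel_adj _ _ _).1 h).2 with h | h
    · have := h.1
      dsimp only at this
      omega
    · refine ⟨u.1, mem_KK.2 ⟨fun a ha b hb hab => ⟨hab, fun h' => ?_⟩, h.1⟩,
        h.2.2 (by simp), h.2.2 (by simp)⟩
      have c' := card_pair hab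
      have ne : u ≠ ⟨{a, b}, Or.inr c'⟩ := fun e => by
        have := h.1
        rw [e] at this
        dsimp only at this
        omega
      exact d1 hu ((hm ⟨{a, b}, Or.inr c'⟩).1 h') ne ((SimpleGraph.fromRel_adj _ _ _).2
        ⟨ne, Or.inl ⟨h.1, c', by simpa [insert_subset_iff] using ⟨ha, hb⟩⟩⟩)
  have h3 := c2_cover (E.filter fun A => A.card = 2) univ (fun x y => x ≠ y ∧ ¬ G.Adj x y) 2
    (fun x _ y _ h => ⟨{x, y}, mem_filter.2 ⟨by_contra fun h' => h.2 ⟨h.1, h'⟩, card_pair h.1⟩,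
      by simp, by simp⟩) fun Q hQ => by
    refine (c2_off _ _ fun _ _ h => h.1).trans ?_
    simp only [inter_univ, (mem_filter.1 hQ).2]
    norm_num
  have h4 : (E.filter fun A => A.card = 2).card + (E.filter fun A => A.card = l).card ≤
      iNum (Gr l n) := by
    rw [← d0, ← card_map (Function.Embedding.subtype _), ← card_union_of_disjoint
      (disjoint_filter.2 fun _ _ _ _ => by omega)]
    exact card_le_card (union_subset (filter_subset _ _) (filter_subset _ _))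
  have h5 := H (Fin n) G (by simpa using hn) h2
  have h6 : ((KK G l univ).card : ℝ) ≤ (E.filter fun A => A.card = l).card := by
    exact_mod_cast card_le_card h1
  have h7 : ((E.filter fun A => A.card = 2).card : ℝ) + (E.filter fun A => A.card = l).card ≤
      iNum (Gr l n) := by exact_mod_cast h4
  have hL : (4 : ℝ) ≤ l := by exact_mod_cast hl
  have h8 : 0 ≤ ((l : ℝ) + 3) / (((l : ℝ) - 1) * ((l : ℝ) + 1)) + ε :=
    add_nonneg (div_nonneg (by linarith) (mul_nonneg (by linarith) (by linarith))) hε.le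
  have h9 : (n.choose 2 : ℝ) ≤ (n : ℝ) ^ 2 / 2 := by
    rw [Nat.cast_choose_two]
    nlinarith [(Nat.cast_nonneg n : (0 : ℝ) ≤ n)]
  rw [Fintype.card_fin] at h5
  nlinarith [mul_le_mul_of_nonneg_left h9 h8]

end Pool.Agent.Results.MP_8cad3b_co.Yes
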